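import Pool.Agent.H58.SO.Basic

/-!
# Several orbits of vertices: one position of a configuration
-/

set_option autoImplicit false

namespace Pool.Agent.H98.SO

open Pool.Agent.H68.BP Pool.Agent.H58.SF Pool.Agent.H53.GC Pool.Agent.H53.NR Pool.Agent.H58.SO

theorem pf_CCL : T_CCL := by
  intro V X Θ _ M B P I R _ x lev ρ supp z l D hc hs h1 h2
  refine ⟨fun a => hc.typ a l, fun a b ha hb => ?_⟩
  have he : z a l = z b l ↔ x a l = x b l :=
    (hc.eq_iff a l b l).trans ⟨fun h => h2 a b ha hb h.1 h.2, fun h => h1 a b ha hb h⟩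
  refine ⟨he, ?_⟩
  by_cases hx : x a l = x b l
  · have hz : z a l = z b l := he.2 hx
    show B.c (z a l) (z b l) = B.c (x a l) (x b l)
    rw [← hz, ← hx, B.diag, B.diag, hc.typ a l]
  · exact (hc.col a l b l).1 ⟨⟨l, hs a ha, hs b hb⟩, hx⟩

end Pool.Agent.H98.SO
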